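import Pool.Agent.Helper30_SkewP4.Stmts

/-! # SKEW: PIE -/

set_option autoImplicit false

open scoped Matrix

namespace Pool.Agent.SkewP4.H81

open Pool.Agent.SkewP4

/-- two vectors in a two dimensional space -/
theorem wedge_prop {V : Type} [AddCommGroup V] [Module ℂ V] [FiniteDimensional ℂ V]
    (hV : Module.finrank ℂ V = 2) (f g : V →ₗ[ℂ] ℂ) (f' g' : V →ₗ[ℂ] ℂ) (u v s t : V) :
    (f s * g t - f t * g s) * (f' u * g' v - f' v * g' u) =
      (f u * g v - f v * g u) * (f' s * g' t - f' t * g' s) := by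
  let b := Module.finBasisOfFinrankEq ℂ V hV
  have h : ∀ w : V, w = b.repr w 0 • b 0 + b.repr w 1 • b 1 := by
    intro w
    conv_lhs => rw [← b.sum_repr w, Fin.sum_univ_two]
  rw [h u, h v, h s, h t]
  simp only [map_add, map_smul, smul_eq_mul]
  ring

theorem genMat_eval {n : ℕ} (A : Fin 5 → Matrix (Fin n) (Fin n) ℂ) (x : Fin 5 → ℂ) :
    (genMat A).map (MvPolynomial.eval x) = evMat A x := by
  ext a b
  simp [genMat, evMat, Matrix.sum_apply, Matrix.map_apply]

theorem pointwise {n : ℕ} (A : Fin 5 → Matrix (Fin n) (Fin n) ℂ) (hA : ConstRank A)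
    (x : Fin 5 → ℂ) (hx : x ≠ 0) (u v s t : Fin n → ℂ) (hu : evMat A x *ᵥ u = 0)
    (hv : evMat A x *ᵥ v = 0) (hs : evMat A x *ᵥ s = 0) (ht : evMat A x *ᵥ t = 0)
    (a b c e : Fin n) : (s c * t e - t c * s e) * (u a * v b - v a * u b) =
      (u c * v e - v c * u e) * (s a * t b - t a * s b) := by
  let V := LinearMap.ker (evMat A x).mulVecLin
  have hV : Module.finrank ℂ V = 2 := by
    show Module.finrank ℂ (LinearMap.ker (evMat A x).mulVecLin) = 2
    have h1 := (evMat A x).mulVecLin.finrank_range_add_finrank_ker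
    have h2 := hA.rk x hx
    rw [Matrix.rank] at h2
    rw [Module.finrank_fin_fun] at h1
    omega
  let p : Fin n → (V →ₗ[ℂ] ℂ) := fun i => (LinearMap.proj i : (Fin n → ℂ) →ₗ[ℂ] ℂ) ∘ₗ V.subtype
  exact wedge_prop hV (p c) (p e) (p a) (p b) ⟨u, by simpa [V] using hu⟩ ⟨v, by simpa [V] using hv⟩
    ⟨s, by simpa [V] using hs⟩ ⟨t, by simpa [V] using ht⟩

theorem poly_ext (f g : S) (h : ∀ x : Fin 5 → ℂ, x ≠ 0 → MvPolynomial.eval x f =
    MvPolynomial.eval x g) : f = g := by
  have h1 : MvPolynomial.X 0 * f = MvPolynomial.X 0 * g := by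
    apply MvPolynomial.funext
    intro x
    rw [map_mul, map_mul, MvPolynomial.eval_X]
    by_cases hx : x = 0
    · subst hx
      simp
    · rw [h x hx]
  exact mul_left_cancel₀ (MvPolynomial.X_ne_zero _) h1

theorem wedge_poly {n : ℕ} (A : Fin 5 → Matrix (Fin n) (Fin n) ℂ) (hA : ConstRank A)
    (u v s t : Fin n → S) (hu : genMat A *ᵥ u = 0)
    (hv : genMat A *ᵥ v = 0) (hs : genMat A *ᵥ s = 0) (ht : genMat A *ᵥ t = 0)
    (a b c e : Fin n) : (s c * t e - t c * s e) * (u a * v b - v a * u b) =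
      (u c * v e - v c * u e) * (s a * t b - t a * s b) := by
  apply poly_ext
  intro x hx
  have hev : ∀ u : Fin n → S, genMat A *ᵥ u = 0 →
      evMat A x *ᵥ (fun i => MvPolynomial.eval x (u i)) = 0 := by
    intro u hu
    rw [← genMat_eval]
    funext i
    have h1 := congrArg (MvPolynomial.eval x) (congrFun hu i)
    rw [RingHom.map_mulVec] at h1
    rw [Pi.zero_apply, map_zero] at h1
    exact h1
  have := pointwise A hA x hx _ _ _ _ (hev u hu) (hev v hv) (hev s hs) (hev t ht) a b c e
  simp only [map_mul, map_sub]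
  exact this

theorem pie : PieStmt := by
  classical
  intro n A hA
  by_cases hall : ∀ u v : Fin n → S, genMat A *ᵥ u = 0 → genMat A *ᵥ v = 0 →
      ∀ a b, u a * v b - v a * u b = 0
  · refine ⟨0, by simp, by simp, fun u v hu hv => ⟨0, fun a b => ?_⟩⟩
    rw [hall u v hu hv a b]
    simp
  · push Not at hall
    obtain ⟨s, t, hs, ht, a₀, b₀, h0⟩ := hall
    let _ : StrongNormalizationMonoid S := UniqueFactorizationMonoid.strongNormalizationMonoid
    let _ : NormalizedGCDMonoid S := UniqueFactorizationMonoid.toNormalizedGCDMonoid S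
    let w : Fin n × Fin n → S := fun p => s p.1 * t p.2 - t p.1 * s p.2
    obtain ⟨π, hπ1, hπ2⟩ := Finset.extract_gcd w (s := Finset.univ) ⟨(a₀, b₀), Finset.mem_univ _⟩
    set G : S := Finset.univ.gcd w with hG
    have hw : ∀ a b, s a * t b - t a * s b = G * π (a, b) := fun a b => hπ1 (a, b)
      (Finset.mem_univ _)
    have hG0 : G ≠ 0 := by
      intro h
      apply h0
      rw [hw, h, zero_mul]
    refine ⟨Matrix.of fun a b => π (a, b), ?_, ?_, ?_⟩
    · refine Matrix.ext fun a b => ?_
      rw [Matrix.transpose_apply, Matrix.neg_apply, Matrix.of_apply, Matrix.of_apply]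
      apply mul_left_cancel₀ hG0
      rw [mul_neg, ← hw, ← hw]
      ring
    · refine Matrix.ext fun a c => ?_
      rw [Matrix.mul_apply, Matrix.zero_apply]
      apply mul_left_cancel₀ hG0
      rw [mul_zero, Finset.mul_sum]
      have h1 : ∀ j, G * (genMat A a j * (Matrix.of fun a b => π (a, b)) j c) =
          (genMat A a j * s j) * t c - (genMat A a j * t j) * s c := by
        intro j
        rw [Matrix.of_apply]
        have := hw j c
        linear_combination (-(genMat A a j)) * this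
      simp_rw [h1]
      rw [Finset.sum_sub_distrib, ← Finset.sum_mul, ← Finset.sum_mul]
      have h2 : ∑ j, genMat A a j * s j = 0 := congrFun hs a
      have h3 : ∑ j, genMat A a j * t j = 0 := congrFun ht a
      rw [h2, h3]
      ring
    · intro u v hu hv
      have hprop : ∀ a b, (s a₀ * t b₀ - t a₀ * s b₀) * (u a * v b - v a * u b) =
          (u a₀ * v b₀ - v a₀ * u b₀) * (G * π (a, b)) := by
        intro a b
        rw [← hw]
        exact wedge_poly A hA u v s t hu hv hs ht a b a₀ b₀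
      have hdvd : (s a₀ * t b₀ - t a₀ * s b₀) ∣ (u a₀ * v b₀ - v a₀ * u b₀) * G := by
        have h1 : (s a₀ * t b₀ - t a₀ * s b₀) ∣ Finset.univ.gcd (fun p : Fin n × Fin n =>
            ((u a₀ * v b₀ - v a₀ * u b₀) * G) * π p) := by
          apply Finset.dvd_gcd
          intro p _
          exact ⟨u p.1 * v p.2 - v p.1 * u p.2, by rw [hprop]; ring⟩
        have h2 := Finset.gcd_mul_left' Finset.univ π ((u a₀ * v b₀ - v a₀ * u b₀) * G)
        rw [hπ2, mul_one] at h2
        exact h1.trans h2.dvd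
      obtain ⟨g, hg⟩ := hdvd
      refine ⟨g, fun a b => ?_⟩
      apply mul_left_cancel₀ h0
      rw [hprop, Matrix.of_apply, ← mul_assoc, hg, mul_assoc]

end Pool.Agent.SkewP4.H81
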