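import Pool.Agent.Helper30_SkewP4.Stmts

/-! # SKEW: E1 -/

set_option autoImplicit false

namespace Pool.Agent.SkewP4.H81

open Pool.Agent.SkewP4

theorem e1 : E1Stmt := by
  intro Λ _ _ M c hc hdc hic
  obtain ⟨z0, hz0, rfl⟩ := M.exact 3 0 c (by norm_num) hc hdc
  have h1 : M.i z0 ∈ M.G 2 0 := M.i_mem 2 0 z0 hz0
  have h2 : M.d (M.i z0) = 0 := by rw [M.d_i, hic, neg_zero]
  obtain ⟨u, hu, hiu⟩ := M.koszul (M.i z0) (M.closed_zero 2 _ h1 h2) (M.i_i z0)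
  refine ⟨z0 - u, Submodule.sub_mem _ hz0 (M.Z_le 3 hu), ?_, ?_⟩
  · rw [map_sub, hiu, sub_self]
  · rw [map_sub, M.d_Z 3 u hu, sub_zero]

end Pool.Agent.SkewP4.H81
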